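import Pool.Agent.Run7.h747.ZB.Defs

/-! # Piece HARM of the project ZB (helper67) -/

set_option autoImplicit false

namespace Pool.Agent.Run7.h67.ZB

open Run7.h747.ZB

/-- the weight -/
def al (L a : ℤ) : ℤ := if 0 ≤ a ∧ a ≤ L then (a * (L - a)) ^ 2 else 0

theorem al_nonneg (L a : ℤ) : 0 ≤ al L a := by
  unfold al; split_ifs <;> positivity

theorem al_zero {L a : ℤ} (h : a ≤ 0 ∨ L ≤ a) : al L a = 0 := by
  unfold al
  split_ifs with h1
  · rcases h with h | h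
    · have : a = 0 := le_antisymm h h1.1
      subst this; simp
    · have : a = L := le_antisymm h1.2 h
      subst this; simp
  · rfl

theorem al_eq {L a : ℤ} (h1 : 0 ≤ a) (h2 : a ≤ L) : al L a = (a * (L - a)) ^ 2 := if_pos ⟨h1, h2⟩

theorem prod_le {L a : ℤ} (h1 : 0 ≤ a) (h2 : a ≤ L) : 0 ≤ a * (L - a) ∧ a * (L - a) ≤ L ^ 2 := by
  refine ⟨mul_nonneg h1 (by linarith), ?_⟩
  nlinarith [mul_nonneg (le_trans h1 h2) (sub_nonneg.2 h2), sq_nonneg a]

theorem al_le {L a : ℤ} (_hL : 0 ≤ L) : al L a ≤ L ^ 4 := by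
  by_cases h : 0 ≤ a ∧ a ≤ L
  · rw [al_eq h.1 h.2]
    obtain ⟨h1, h2⟩ := prod_le h.1 h.2
    calc (a * (L - a)) ^ 2 ≤ (L ^ 2) ^ 2 := pow_le_pow_left₀ h1 h2 2
      _ = L ^ 4 := by ring
  · rw [al_zero (by omega)]
    positivity

theorem al_d {L : ℤ} (hL : 1 ≤ L) (a : ℤ) : |al L (a + 1) - al L a| ≤ 2 * L ^ 3 := by
  by_cases h : 0 ≤ a ∧ a + 1 ≤ L
  · rw [al_eq (by omega) h.2, al_eq h.1 (by omega)]
    obtain ⟨h1, h2⟩ := prod_le (L := L) (a := a + 1) (by omega) h.2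
    obtain ⟨h3, h4⟩ := prod_le (L := L) (a := a) h.1 (by omega)
    have e : ((a + 1) * (L - (a + 1))) ^ 2 - (a * (L - a)) ^ 2 =
        (L - 2 * a - 1) * ((a + 1) * (L - (a + 1)) + a * (L - a)) := by ring
    rw [e, abs_mul]
    have h5 : |L - 2 * a - 1| ≤ L := by rw [abs_le]; constructor <;> omega
    have h6 : |(a + 1) * (L - (a + 1)) + a * (L - a)| ≤ 2 * L ^ 2 := by
      rw [abs_of_nonneg (by linarith)]; linarith
    calc |L - 2 * a - 1| * |(a + 1) * (L - (a + 1)) + a * (L - a)| ≤ L * (2 * L ^ 2) :=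
          mul_le_mul h5 h6 (abs_nonneg _) (by omega)
      _ = 2 * L ^ 3 := by ring
  · rw [al_zero (a := a) (by omega), al_zero (a := a + 1) (by omega)]
    simp only [sub_zero, abs_zero]
    positivity

theorem al_dd {L : ℤ} (hL : 1 ≤ L) (a : ℤ) :
    |al L (a + 1) - 2 * al L a + al L (a - 1)| ≤ 5 * L ^ 2 := by
  by_cases h : 1 ≤ a ∧ a + 1 ≤ L
  · rw [al_eq (by omega) h.2, al_eq (by omega) (by omega), al_eq (by omega) (by omega)]
    obtain ⟨h3, h4⟩ := prod_le (L := L) (a := a) (by omega) (by omega)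
    have e : ((a + 1) * (L - (a + 1))) ^ 2 - 2 * (a * (L - a)) ^ 2 +
        ((a - 1) * (L - (a - 1))) ^ 2 = 2 * L ^ 2 - 12 * (a * (L - a)) + 2 := by ring
    have e2 : 2 * L ^ 2 - 12 * (a * (L - a)) + 2 = 2 * (L - 2 * a) ^ 2 - 4 * (a * (L - a)) + 2 := by
      ring
    rw [e, abs_le]
    constructor
    · rw [e2]; nlinarith [sq_nonneg (L - 2 * a)]
    · nlinarith
  · by_cases h0 : a = 0
    · subst h0
      rw [al_zero (a := 0) (by omega), al_zero (a := 0 - 1) (by omega), al_eq (by omega) (by omega)]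
      have e0 : ((0 + 1) * (L - (0 + 1))) ^ 2 - 2 * 0 + 0 = (L - 1) ^ 2 := by ring
      rw [e0, abs_of_nonneg (by positivity)]
      nlinarith
    · by_cases h1 : a = L
      · subst h1
        rw [al_zero (a := a) (by omega), al_zero (a := a + 1) (by omega),
          al_eq (by omega) (by omega)]
        have e0 : 0 - 2 * 0 + ((a - 1) * (a - (a - 1))) ^ 2 = (a - 1) ^ 2 := by ring
        rw [e0, abs_of_nonneg (by positivity)]
        nlinarith
      · rw [al_zero (a := a) (by omega), al_zero (a := a + 1) (by omega),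
          al_zero (a := a - 1) (by omega)]
        simp only [mul_zero, sub_zero, add_zero, abs_zero]
        positivity

theorem psi_bound {L : ℤ} (hL : 1 ≤ L) (a b : ℤ) :
    |al L (a + 1) * al L (b - 1) - 2 * (al L a * al L b) + al L (a - 1) * al L (b + 1)| ≤
      18 * L ^ 6 := by
  have hL0 : 0 ≤ L := by omega
  have e : al L (a + 1) * al L (b - 1) - 2 * (al L a * al L b) + al L (a - 1) * al L (b + 1) =
      (al L (a + 1) - 2 * al L a + al L (a - 1)) * al L b +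
      al L a * (al L (b + 1) - 2 * al L b + al L (b - 1)) +
      (al L (a + 1) - al L a) * (al L (b - 1) - al L b) +
      (al L (a - 1) - al L a) * (al L (b + 1) - al L b) := by ring
  rw [e]
  have ha0 : |al L a| ≤ L ^ 4 := by rw [abs_of_nonneg (al_nonneg _ _)]; exact al_le hL0
  have hb0 : |al L b| ≤ L ^ 4 := by rw [abs_of_nonneg (al_nonneg _ _)]; exact al_le hL0
  have ha1 := al_d hL a
  have hb1 := al_d hL b
  have ha2 : |al L (a - 1) - al L a| ≤ 2 * L ^ 3 := by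
    have := al_d hL (a - 1)
    rwa [sub_add_cancel, abs_sub_comm] at this
  have hb2 : |al L (b - 1) - al L b| ≤ 2 * L ^ 3 := by
    have := al_d hL (b - 1)
    rwa [sub_add_cancel, abs_sub_comm] at this
  have ha3 := al_dd hL a
  have hb3 := al_dd hL b
  have p1 := mul_le_mul ha3 hb0 (abs_nonneg _) (by positivity)
  have p2 := mul_le_mul ha0 hb3 (abs_nonneg _) (by positivity)
  have p3 := mul_le_mul ha1 hb2 (abs_nonneg _) (by positivity)
  have p4 := mul_le_mul ha2 hb1 (abs_nonneg _) (by positivity)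
  rw [← abs_mul] at p1 p2 p3 p4
  refine (abs_add_le _ _).trans ?_
  refine (add_le_add_left ((abs_add_le _ _).trans (add_le_add_left (abs_add_le _ _) _)) _).trans ?_
  have e5 : 5 * L ^ 2 * L ^ 4 + L ^ 4 * (5 * L ^ 2) + 2 * L ^ 3 * (2 * L ^ 3) +
    2 * L ^ 3 * (2 * L ^ 3) = 18 * L ^ 6 := by ring
  linarith

theorem shift1 (f g : ℤ → ℂ) (A B : ℤ) (hf : ∀ q, q ≤ A ∨ B ≤ q → f q = 0) :
    ∑ q ∈ Finset.Icc A B, f q * g (q - 1) = ∑ q ∈ Finset.Icc A B, f (q + 1) * g q := by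
  have h1 : ∑' q, f q * g (q - 1) = ∑ q ∈ Finset.Icc A B, f q * g (q - 1) :=
    tsum_eq_sum (fun q hq => by
      rw [hf q (by rw [Finset.mem_Icc] at hq; omega), zero_mul])
  have h2 : ∑' q, f (q + 1) * g q = ∑ q ∈ Finset.Icc A B, f (q + 1) * g q :=
    tsum_eq_sum (fun q hq => by
      rw [hf (q + 1) (by rw [Finset.mem_Icc] at hq; omega), zero_mul])
  rw [← h1, ← h2, ← (Equiv.addRight (1 : ℤ)).tsum_eq (fun q => f q * g (q - 1))]
  refine tsum_congr fun q => ?_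
  simp

theorem shift2 (f g : ℤ → ℂ) (A B : ℤ) (hf : ∀ q, q ≤ A ∨ B ≤ q → f q = 0) :
    ∑ q ∈ Finset.Icc A B, f q * g (q + 1) = ∑ q ∈ Finset.Icc A B, f (q - 1) * g q := by
  have h1 : ∑' q, f q * g (q + 1) = ∑ q ∈ Finset.Icc A B, f q * g (q + 1) :=
    tsum_eq_sum (fun q hq => by
      rw [hf q (by rw [Finset.mem_Icc] at hq; omega), zero_mul])
  have h2 : ∑' q, f (q - 1) * g q = ∑ q ∈ Finset.Icc A B, f (q - 1) * g q :=
    tsum_eq_sum (fun q hq => by
      rw [hf (q - 1) (by rw [Finset.mem_Icc] at hq; omega), zero_mul])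
  rw [← h1, ← h2, ← (Equiv.addRight (-1 : ℤ)).tsum_eq (fun q => f q * g (q + 1))]
  refine tsum_congr fun q => ?_
  simp [sub_eq_add_neg]

/-- summation by parts -/
theorem parts (c : ℤ → ℂ) (hsd : ∀ n m : ℤ,
      U c (n - 1) (m + 1) - 2 * U c n m + U c (n + 1) (m - 1) = 2 * (c n * c m))
    (ψ : ℤ → ℝ) (M A B : ℤ) (hψ : ∀ q, q ≤ A ∨ B ≤ q → ψ q = 0) :
    ∑ q ∈ Finset.Icc A B, (ψ q : ℂ) * (c q * c (M - q)) =
      1 / 2 * ∑ q ∈ Finset.Icc A B, ((ψ (q + 1) - 2 * ψ q + ψ (q - 1) : ℝ) : ℂ) * U c q (M - q) := by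
  have hψ' : ∀ q, q ≤ A ∨ B ≤ q → (ψ q : ℂ) = 0 := fun q h => by rw [hψ q h]; simp
  have h1 := shift1 (fun q => (ψ q : ℂ)) (fun q => U c q (M - q)) A B hψ'
  have h2 := shift2 (fun q => (ψ q : ℂ)) (fun q => U c q (M - q)) A B hψ'
  have h3 : ∀ q, (ψ q : ℂ) * (c q * c (M - q)) = 1 / 2 * ((ψ q : ℂ) * U c (q - 1) (M - (q - 1)) -
      2 * ((ψ q : ℂ) * U c q (M - q)) + (ψ q : ℂ) * U c (q + 1) (M - (q + 1))) := by
    intro q
    have h := hsd q (M - q)
    have e1 : M - (q - 1) = M - q + 1 := by ring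
    have e2 : M - (q + 1) = M - q - 1 := by ring
    rw [e1, e2]
    linear_combination (-(ψ q : ℂ) / 2) * h
  rw [Finset.sum_congr rfl fun q _ => h3 q, ← Finset.mul_sum, Finset.sum_add_distrib,
    Finset.sum_sub_distrib, h1, h2, ← Finset.sum_sub_distrib, ← Finset.sum_add_distrib]
  congr 1
  refine Finset.sum_congr rfl fun q _ => ?_
  push_cast
  ring

theorem t_HARM (hCONV : S_CONV) (hSD : S_SD) : S_HARM := by
  intro c hc N hN
  obtain ⟨-, hsd⟩ := hSD c hc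
  set L : ℤ := 7 * (N : ℤ) with hLdef
  have hL1 : 1 ≤ L := by omega
  have hNr : (1 : ℝ) ≤ N := by exact_mod_cast hN
  have hLr : (L : ℝ) = 7 * N := by rw [hLdef]; push_cast; ring
  let w : ℤ → ℝ := fun q => ((al L (q - N) : ℤ) : ℝ)
  let b : ℤ → ℂ := fun q => (w q : ℂ) * c q
  have hw0 : ∀ q : ℤ, q ≤ N ∨ 8 * (N : ℤ) ≤ q → w q = 0 := by
    intro q hq
    show ((al L (q - N) : ℤ) : ℝ) = 0
    rw [al_zero (by omega)]
    simp
  set I : Finset ℤ := Finset.Icc (N : ℤ) (8 * N) with hI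
  have hconv := hCONV b (N : ℤ) (8 * N) (fun q hq => by
    show (w q : ℂ) * c q = 0
    rw [hw0 q (by omega)]; simp)
  rw [← hI] at hconv
  -- the truncated norms
  let v : ℤ → ℤ → ℝ := fun M q => if M - q ∈ I then ‖U c q (M - q)‖ else 0
  have hbound : ∀ M : ℤ, ‖∑ q ∈ I, b q * b (M - q)‖ ^ 2 ≤
      81 * (L : ℝ) ^ 12 * (8 * N) * ∑ q ∈ I, v M q ^ 2 := by
    intro M
    let ψ : ℤ → ℝ := fun q => w q * w (M - q)
    have hψ0 : ∀ q : ℤ, q ≤ N ∨ 8 * (N : ℤ) ≤ q → ψ q = 0 := fun q hq => by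
      show w q * w (M - q) = 0
      rw [hw0 q hq, zero_mul]
    have h1 : ∑ q ∈ I, b q * b (M - q) = ∑ q ∈ I, (ψ q : ℂ) * (c q * c (M - q)) := by
      refine Finset.sum_congr rfl fun q _ => ?_
      show (w q : ℂ) * c q * ((w (M - q) : ℂ) * c (M - q)) = ((w q * w (M - q) : ℝ) : ℂ) * _
      push_cast
      ring
    rw [h1, hI, parts c hsd ψ M _ _ hψ0, ← hI]
    have h2 : ∀ q, ‖((ψ (q + 1) - 2 * ψ q + ψ (q - 1) : ℝ) : ℂ) * U c q (M - q)‖ ≤
        18 * (L : ℝ) ^ 6 * (if M - q ∈ I then ‖U c q (M - q)‖ else 0) := by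
      intro q
      rw [norm_mul, Complex.norm_real, Real.norm_eq_abs]
      have e : ψ (q + 1) - 2 * ψ q + ψ (q - 1) =
          ((al L (q - N + 1) * al L (M - q - N - 1) - 2 * (al L (q - N) * al L (M - q - N)) +
            al L (q - N - 1) * al L (M - q - N + 1) : ℤ) : ℝ) := by
        show (al L (q + 1 - N) : ℝ) * (al L (M - (q + 1) - N) : ℝ) -
          2 * ((al L (q - N) : ℝ) * (al L (M - q - N) : ℝ)) +
          (al L (q - 1 - N) : ℝ) * (al L (M - (q - 1) - N) : ℝ) = _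
        have e1 : q + 1 - (N : ℤ) = q - N + 1 := by ring
        have e2 : M - (q + 1) - (N : ℤ) = M - q - N - 1 := by ring
        have e3 : q - 1 - (N : ℤ) = q - N - 1 := by ring
        have e4 : M - (q - 1) - (N : ℤ) = M - q - N + 1 := by ring
        rw [e1, e2, e3, e4]
        push_cast
        ring
      by_cases hM : M - q ∈ I
      · rw [if_pos hM]
        refine mul_le_mul_of_nonneg_right ?_ (norm_nonneg _)
        rw [e]
        have := psi_bound hL1 (q - N) (M - q - N)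
        exact_mod_cast this
      · rw [if_neg hM, mul_zero]
        have h0 : ψ (q + 1) - 2 * ψ q + ψ (q - 1) = 0 := by
          rw [hI, Finset.mem_Icc] at hM
          show w (q + 1) * w (M - (q + 1)) - 2 * (w q * w (M - q)) + w (q - 1) * w (M - (q - 1)) = 0
          rw [hw0 (M - (q + 1)) (by omega), hw0 (M - q) (by omega), hw0 (M - (q - 1)) (by omega)]
          ring
        rw [h0]
        simp
    have h3 : ‖1 / 2 * ∑ q ∈ I, ((ψ (q + 1) - 2 * ψ q + ψ (q - 1) : ℝ) : ℂ) * U c q (M - q)‖ ≤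
        9 * (L : ℝ) ^ 6 * ∑ q ∈ I, v M q := by
      rw [norm_mul]
      have h4 := norm_sum_le_of_le I fun q _ => h2 q
      rw [← Finset.mul_sum] at h4
      have h5 : ‖(1 / 2 : ℂ)‖ = 1 / 2 := by norm_num
      rw [h5]
      have h6 : ∑ q ∈ I, (if M - q ∈ I then ‖U c q (M - q)‖ else 0) = ∑ q ∈ I, v M q := rfl
      rw [h6] at h4
      linarith
    have h7 := pow_le_pow_left₀ (norm_nonneg _) h3 2
    refine h7.trans ?_
    have h8 : (∑ q ∈ I, v M q) ^ 2 ≤ (I.card : ℝ) * ∑ q ∈ I, v M q ^ 2 :=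
      sq_sum_le_card_mul_sum_sq
    have h9 : (I.card : ℝ) ≤ 8 * N := by
      rw [hI, Int.card_Icc]
      have : (8 * (N : ℤ) + 1 - N).toNat ≤ 8 * N := by omega
      exact_mod_cast this
    have h10 : 0 ≤ ∑ q ∈ I, v M q ^ 2 := Finset.sum_nonneg fun q _ => sq_nonneg _
    have h11 : (∑ q ∈ I, v M q) ^ 2 ≤ 8 * N * ∑ q ∈ I, v M q ^ 2 :=
      h8.trans (mul_le_mul_of_nonneg_right h9 h10)
    calc (9 * (L : ℝ) ^ 6 * ∑ q ∈ I, v M q) ^ 2 =
        81 * (L : ℝ) ^ 12 * (∑ q ∈ I, v M q) ^ 2 := by ring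
      _ ≤ 81 * (L : ℝ) ^ 12 * (8 * N * ∑ q ∈ I, v M q ^ 2) :=
        mul_le_mul_of_nonneg_left h11 (by positivity)
      _ = _ := by ring
  -- the double sum
  set W : ℝ := ∑ n ∈ I, ∑ m ∈ I, ‖U c n m‖ ^ 2 with hW
  have hdouble : ∑ M ∈ Finset.Icc (2 * (N : ℤ)) (2 * (8 * N)), ∑ q ∈ I, v M q ^ 2 ≤ W := by
    rw [Finset.sum_comm]
    refine Finset.sum_le_sum fun q hq => ?_
    have h1 : ∑ M ∈ Finset.Icc (2 * (N : ℤ)) (2 * (8 * N)), v M q ^ 2 =
        ∑ M ∈ (Finset.Icc (2 * (N : ℤ)) (2 * (8 * N))).filter (fun M => M - q ∈ I),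
          ‖U c q (M - q)‖ ^ 2 := by
      rw [Finset.sum_filter]
      refine Finset.sum_congr rfl fun M _ => ?_
      show (if M - q ∈ I then ‖U c q (M - q)‖ else 0) ^ 2 = _
      split_ifs <;> simp
    rw [h1]
    refine le_of_eq ?_
    refine Finset.sum_nbij' (fun M => M - q) (fun m => m + q) ?_ ?_ ?_ ?_ ?_
    · intro M hM
      exact (Finset.mem_filter.1 hM).2
    · intro m hm
      rw [Finset.mem_filter]
      have hm' := Finset.mem_Icc.1 hm
      have hq' := Finset.mem_Icc.1 hq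
      refine ⟨Finset.mem_Icc.2 ⟨by omega, by omega⟩, ?_⟩
      rw [add_sub_cancel_right]
      exact hm
    · intro M _; ring
    · intro m _; ring
    · intro M _; rfl
  have hup : ∑ M ∈ Finset.Icc (2 * (N : ℤ)) (2 * (8 * N)), ‖∑ q ∈ I, b q * b (M - q)‖ ^ 2 ≤
      81 * (L : ℝ) ^ 12 * (8 * N) * W := by
    refine (Finset.sum_le_sum fun M _ => hbound M).trans ?_
    rw [← Finset.mul_sum]
    exact mul_le_mul_of_nonneg_left hdouble (by positivity)
  -- the lower bound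
  set X : ℝ := ∑ q ∈ Finset.Ico (2 * (N : ℤ)) (4 * N), ‖c q‖ ^ 2 with hX
  have hX0 : 0 ≤ X := Finset.sum_nonneg fun q _ => sq_nonneg _
  have hlow : 256 * (N : ℝ) ^ 8 * X ≤ ∑ q ∈ I, ‖b q‖ ^ 2 := by
    rw [hX, Finset.mul_sum]
    have hsub : Finset.Ico (2 * (N : ℤ)) (4 * N) ⊆ I := by
      intro q hq
      rw [Finset.mem_Ico] at hq
      exact Finset.mem_Icc.2 ⟨by omega, by omega⟩
    refine le_trans (Finset.sum_le_sum fun q hq => ?_)
      (Finset.sum_le_sum_of_subset_of_nonneg hsub fun q _ _ => sq_nonneg _)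
    rw [Finset.mem_Ico] at hq
    show 256 * (N : ℝ) ^ 8 * ‖c q‖ ^ 2 ≤ ‖(w q : ℂ) * c q‖ ^ 2
    rw [norm_mul, mul_pow, Complex.norm_real, Real.norm_eq_abs, sq_abs]
    refine mul_le_mul_of_nonneg_right ?_ (sq_nonneg _)
    have h1 : w q = (((q - N) * (L - (q - N)) : ℤ) : ℝ) ^ 2 := by
      show ((al L (q - N) : ℤ) : ℝ) = _
      rw [al_eq (by omega) (by omega)]
      push_cast
      ring
    have h2 : 4 * (N : ℤ) ^ 2 ≤ (q - N) * (L - (q - N)) := by
      rw [hLdef]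
      nlinarith [mul_nonneg (sub_nonneg.2 hq.1) (sub_nonneg.2 hq.2.le)]
    have h3 : 4 * (N : ℝ) ^ 2 ≤ (((q - N) * (L - (q - N)) : ℤ) : ℝ) := by exact_mod_cast h2
    have h4 : 16 * (N : ℝ) ^ 4 ≤ w q := by
      rw [h1]
      calc 16 * (N : ℝ) ^ 4 = (4 * (N : ℝ) ^ 2) ^ 2 := by ring
        _ ≤ _ := pow_le_pow_left₀ (by positivity) h3 2
    calc 256 * (N : ℝ) ^ 8 = (16 * (N : ℝ) ^ 4) ^ 2 := by ring
      _ ≤ _ := pow_le_pow_left₀ (by positivity) h4 2
  -- the final comparison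
  set T : ℝ := ∑ n ∈ I, ∑ m ∈ I, (n : ℝ) * m * ‖U c n m‖ ^ 2 with hT
  have hWT : (N : ℝ) ^ 2 * W ≤ T := by
    rw [hW, hT, Finset.mul_sum]
    refine Finset.sum_le_sum fun n hn => ?_
    rw [Finset.mul_sum]
    refine Finset.sum_le_sum fun m hm => ?_
    refine mul_le_mul_of_nonneg_right ?_ (sq_nonneg _)
    have hn' : (N : ℝ) ≤ n := by exact_mod_cast (Finset.mem_Icc.1 hn).1
    have hm' : (N : ℝ) ≤ m := by exact_mod_cast (Finset.mem_Icc.1 hm).1
    rw [sq]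
    exact mul_le_mul hn' hm' (by positivity) (by linarith)
  have hfin : (256 * (N : ℝ) ^ 8 * X) ^ 2 ≤ 81 * (L : ℝ) ^ 12 * (8 * N) * W :=
    (pow_le_pow_left₀ (by positivity) hlow 2).trans (hconv.trans hup)
  rw [hLr] at hfin
  have hN13 : (0 : ℝ) < (N : ℝ) ^ 13 := by positivity
  have h1 : (N : ℝ) ^ 13 * (65536 * ((N : ℝ) ^ 5 * X ^ 2)) ≤
      (N : ℝ) ^ 13 * (648 * 7 ^ 12 * T) := by
    calc (N : ℝ) ^ 13 * (65536 * ((N : ℝ) ^ 5 * X ^ 2)) =
        (N : ℝ) ^ 2 * (256 * (N : ℝ) ^ 8 * X) ^ 2 := by ring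
      _ ≤ (N : ℝ) ^ 2 * (81 * (7 * (N : ℝ)) ^ 12 * (8 * N) * W) :=
        mul_le_mul_of_nonneg_left hfin (by positivity)
      _ = (N : ℝ) ^ 13 * (648 * 7 ^ 12) * ((N : ℝ) ^ 2 * W) := by ring
      _ ≤ (N : ℝ) ^ 13 * (648 * 7 ^ 12) * T := mul_le_mul_of_nonneg_left hWT (by positivity)
      _ = _ := by ring
  have h2 := le_of_mul_le_mul_left h1 hN13
  have hT0 : 0 ≤ T := by
    refine le_trans ?_ hWT
    have : 0 ≤ W := Finset.sum_nonneg fun n _ => Finset.sum_nonneg fun m _ => sq_nonneg _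
    positivity
  have h3 : (648 * 7 ^ 12 : ℝ) * T ≤ 65536 * (10 ^ 9 * T) := by
    have : (648 * 7 ^ 12 : ℝ) ≤ 65536 * 10 ^ 9 := by norm_num
    nlinarith
  linarith

end Pool.Agent.Run7.h67.ZB
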